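import Pool.Agent.Helper48.FN.LevStep2

/-!
# Project FN, D1: the finite theorem
-/

set_option autoImplicit false

namespace Pool.Agent.Helper48.FN

open Finset
open Pool.Agent.Helper53.WR
open Pool.Agent.Helper53.FM (BCov blockMax)
open Pool.Agent.Helper74.FN
open Pool.Agent.Helper48.FB (win crossF Cs Fs)

/-- All levels. -/
theorem levels4 {s : ℕ} (hs : 320 ≤ s) (i : ℕ) : i ≤ s / 14 + 1 → ∀ J, 100 ≤ J →
    J ≤ 2 ^ (s * i) * 2 ^ (11 * s) → J ≤ 2 ^ s ^ 2 →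
    LevN (6 * s + i * 32) (2 ^ (i + 2)) (2 ^ (44 * i) * 2 ^ (12 * s))
      (85 ^ i * 2 ^ (3 * s)) J := by
  have hbase : ∀ (i J : ℕ), 100 ≤ J → J ≤ 2 ^ (11 * s) →
      LevN (6 * s + i * 32) (2 ^ (i + 2))
        (2 ^ (44 * i) * 2 ^ (12 * s)) (85 ^ i * 2 ^ (3 * s)) J := by
    intro i J h1 h2
    refine (lev_base (by omega) h1 h2).mono (Nat.le_add_right _ _) ?_ ?_ (Nat.zero_le _)
    · calc 4 = 2 ^ 2 := by norm_num
        _ ≤ _ := Nat.pow_le_pow_right (by norm_num) (by omega)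
    · have h3 : 1 ≤ 2 ^ (11 * s) := Nat.one_le_two_pow
      calc Cs * (2 ^ (11 * s) + 1) ≤ 2 ^ 64 * (2 * 2 ^ (11 * s)) := by
            unfold Cs
            exact Nat.mul_le_mul_left _ (by omega)
        _ = 2 ^ (64 + 1 + 11 * s) := by rw [pow_add 2 (64 + 1), pow_succ 2 64]; ring
        _ ≤ 2 ^ (12 * s) := Nat.pow_le_pow_right (by norm_num) (by omega)
        _ ≤ _ := Nat.le_mul_of_pos_left _ (by positivity)
  induction i with
  | zero =>
    intro _ J h1 h2 _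
    exact hbase 0 J h1 (by simpa using h2)
  | succ i ih =>
    intro hi J h1 h2 h3
    rcases le_or_gt J (2 ^ (11 * s)) with h | h
    · exact hbase (i + 1) J h1 h
    · have hci : 4 ≤ 2 ^ (i + 2) := by
        calc 4 = 2 ^ 2 := by norm_num
          _ ≤ _ := Nat.pow_le_pow_right (by norm_num) (by omega)
      have hlc : Nat.log 2 (2 ^ (i + 2)) ≤ s := by
        rw [Nat.log_pow (by norm_num)]
        omega
      have hstep := level_step4 (s := s) (W := 6 * s + i * 32)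
        (c := 2 ^ (i + 2)) (F := 2 ^ (44 * i) * 2 ^ (12 * s)) (X := 85 ^ i * 2 ^ (3 * s))
        hs hci hlc h h3 ?_
      · refine hstep.mono ?_ ?_ ?_ ?_
        · rw [add_mul, one_mul]
          omega
        · rw [show i + 1 + 2 = (i + 2) + 1 by ring, pow_succ 2 (i + 2), mul_comm]
        · have g1 : 2 ^ (12 * s) ≤ 2 ^ 43 * (2 ^ (44 * i) * 2 ^ (12 * s)) := by
            rw [← mul_assoc]
            exact Nat.le_mul_of_pos_left _ (by positivity)
          calc 2 ^ 43 * (2 ^ (44 * i) * 2 ^ (12 * s)) + 2 ^ (12 * s)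
              ≤ 2 * (2 ^ 43 * (2 ^ (44 * i) * 2 ^ (12 * s))) := by omega
            _ = 2 ^ (44 * (i + 1)) * 2 ^ (12 * s) := by
                rw [show 44 * (i + 1) = 1 + 43 + 44 * i by ring, pow_add 2 (1 + 43), pow_add 2 1]
                ring
        · have g1 : 2 ^ (3 * s) ≤ 85 ^ i * 2 ^ (3 * s) :=
            Nat.le_mul_of_pos_left _ (by positivity)
          rw [pow_succ 85 i]
          calc 84 * (85 ^ i * 2 ^ (3 * s)) + 2 ^ (3 * s)
              ≤ 84 * (85 ^ i * 2 ^ (3 * s)) + 85 ^ i * 2 ^ (3 * s) := Nat.add_le_add_left g1 _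
            _ = 85 ^ i * 85 * 2 ^ (3 * s) := by ring
      · intro L hL1 hL2
        have h2s : 0 < 2 ^ s := by positivity
        refine ih (by omega) L hL1 ?_ ?_
        · have g1 : L * 2 ^ s ≤ 2 ^ (s * i) * 2 ^ (11 * s) * 2 ^ s := by
            calc L * 2 ^ s ≤ J := hL2
              _ ≤ 2 ^ (s * (i + 1)) * 2 ^ (11 * s) := h2
              _ = 2 ^ (s * i) * 2 ^ (11 * s) * 2 ^ s := by rw [mul_add, mul_one, pow_add]; ring
          exact Nat.le_of_mul_le_mul_right g1 h2s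
        · have : L * 1 ≤ L * 2 ^ s := Nat.mul_le_mul_left _ Nat.one_le_two_pow
          omega

/-- FN-D1 (finite theorem). -/
theorem finite_thm4 : ∃ c0 s0 : ℕ, ∀ s, s0 ≤ s → ∀ J : ℕ, 100 ≤ J → 14 * Nat.log 2 J ≤ s ^ 2 →
    ∃ (T : Finset ℕ) (T' B : ℕ → Finset ℕ) (g : ℕ → ℕ),
      NTop J (Cs * (J + 1)) (c0 * s) (2 ^ s) (fun R => (R + 1) * 2 ^ (c0 * s)) g T T' B ∧
      ∑ j ∈ range J, g j ≤ 2 ^ (c0 * s) * J ∧
      ∀ R, (B R).card * (R + 1) ≤ 2 ^ (c0 * s) * J ∧ ∀ j ∈ B R, j < J := by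
  refine ⟨100, 320, fun s hs J hJ hlog => ?_⟩
  have hJlt : J < 2 ^ (Nat.log 2 J + 1) := Nat.lt_pow_succ_log_self (by norm_num) J
  have h1 : Nat.log 2 J ≤ s * (s / 14 + 1) := by
    have h2 : s ^ 2 ≤ 14 * (s * (s / 14 + 1)) := by
      rw [sq]
      have : s * s ≤ s * (14 * (s / 14) + 14) := Nat.mul_le_mul_left _ (by omega)
      nlinarith
    omega
  have hs2 : s * (s / 14 + 1) + 1 ≤ s ^ 2 := by
    rw [sq]
    have : s / 14 + 2 ≤ s := by omega
    have h3 : s * (s / 14 + 2) ≤ s * s := Nat.mul_le_mul_left _ this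
    nlinarith
  have hJ1 : J ≤ 2 ^ (s * (s / 14 + 1)) * 2 ^ (11 * s) := by
    rw [← pow_add]
    calc J ≤ 2 ^ (Nat.log 2 J + 1) := hJlt.le
      _ ≤ 2 ^ (s * (s / 14 + 1) + 11 * s) := Nat.pow_le_pow_right (by norm_num) (by omega)
  have hJ2 : J ≤ 2 ^ s ^ 2 := by
    calc J ≤ 2 ^ (Nat.log 2 J + 1) := hJlt.le
      _ ≤ 2 ^ s ^ 2 := Nat.pow_le_pow_right (by norm_num) (by omega)
  have hl := (levels4 hs (s / 14 + 1) le_rfl J hJ hJ1 hJ2).mono
    (W' := 100 * s) (c' := 2 ^ s) (F' := 2 ^ (100 * s)) (X' := 2 ^ (100 * s)) ?_ ?_ ?_ ?_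
  · obtain ⟨T, T', B, g, h3, h4, h5⟩ := hl
    exact ⟨T, T', B, g, ntop_mono h3 (fun _ => le_rfl) (min_le_right _ _) le_rfl, h4, h5⟩
  · omega
  · exact Nat.pow_le_pow_right (by norm_num) (by omega)
  · rw [← pow_add]
    exact Nat.pow_le_pow_right (by norm_num) (by omega)
  · calc 85 ^ (s / 14 + 1) * 2 ^ (3 * s) ≤ (2 ^ 7) ^ (s / 14 + 1) * 2 ^ (3 * s) :=
          Nat.mul_le_mul_right _ (Nat.pow_le_pow_left (by norm_num) _)
      _ = 2 ^ (7 * (s / 14 + 1) + 3 * s) := by rw [← pow_mul, ← pow_add]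
      _ ≤ _ := Nat.pow_le_pow_right (by norm_num) (by omega)

end Pool.Agent.Helper48.FN
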