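import Pool.Agent.Helper74.FN.Defs
import Pool.Agent.Helper48.FM.LevSeq

/-!
# Project FN, D1, part 1: the parameters of a level
-/

set_option autoImplicit false

namespace Pool.Agent.Helper48.FN

open Finset
open Pool.Agent.Helper53.WR
open Pool.Agent.Helper74.FN
open Pool.Agent.Helper48.WR (aSq uSq aSq_zero aSq_succ aSq_mono le_aSq aSq_add)
open Pool.Agent.Helper48.FM (laT_le_u)

lemma log_le_of_large {x : ℕ} (hx : 2 ^ 17 ≤ x) : 5000 * Nat.log 2 x ≤ x := by
  have h1 : 2 ^ Nat.log 2 x ≤ x := Nat.pow_log_le_self 2 (by omega)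
  have h2 : 17 ≤ Nat.log 2 x := by
    rw [← Nat.log_pow (by norm_num : 1 < 2) 17]
    exact Nat.log_mono_right hx
  have h3 : ∀ l, 17 ≤ l → 5000 * l ≤ 2 ^ l := by
    intro l hl
    induction l, hl using Nat.le_induction with
    | base => norm_num
    | succ n hn ih => rw [pow_succ]; omega
  exact (h3 _ h2).trans h1

/-- The parameter `b` of a level. -/
def bN (a : ℕ → ℕ) (k : ℕ) : ℕ := Nat.log 2 (a k) / 2 + 41

/-- The top window parameter. -/
def wTop (u : ℕ → ℕ) (k : ℕ) : ℕ := Nat.log 2 (laT u k) / 2 + 20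

/-- The basic numbers of the sequence of a level. -/
lemma aSq_facts {s : ℕ} (hs : 320 ≤ s) :
    (∀ k, 2 ^ (8 * s - 5) ≤ uSq (2 ^ (s + 5)) (2 ^ (9 * s)) k) ∧
    (∀ k, 6 * uSq (2 ^ (s + 5)) (2 ^ (9 * s)) (k + 1) ≤ 7 * uSq (2 ^ (s + 5)) (2 ^ (9 * s)) k) ∧
    (∀ k, 2 ^ (s + 5) * uSq (2 ^ (s + 5)) (2 ^ (9 * s)) k ≤ aSq (2 ^ (s + 5)) (2 ^ (9 * s)) k) ∧
    (∀ k, 2000 * Nat.log 2 (aSq (2 ^ (s + 5)) (2 ^ (9 * s)) k) + 200000 ≤
      uSq (2 ^ (s + 5)) (2 ^ (9 * s)) k) := by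
  set K := 2 ^ (s + 5) with hKdef
  set b := 2 ^ (9 * s) with hbdef
  have hK : 2 ^ 42 ≤ K := Nat.pow_le_pow_right (by norm_num) (by omega)
  have hK0 : 0 < K := by positivity
  have hu0 : ∀ k, 2 ^ (8 * s - 5) ≤ aSq K b k / K := by
    intro k
    rw [Nat.le_div_iff_mul_le hK0]
    have h2 : 2 ^ (8 * s - 5) * K = 2 ^ (9 * s) := by
      rw [hKdef, ← pow_add]
      congr 1
      omega
    rw [h2]
    exact le_aSq K b k
  have hbig : 1048576 * (s + 200) ≤ 2 ^ (8 * s - 5) := by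
    have h3 : s + 200 ≤ 2 ^ (s + 1) := by
      have : s < 2 ^ s := Nat.lt_two_pow_self
      rw [pow_succ]
      omega
    calc 1048576 * (s + 200) ≤ 2 ^ 20 * 2 ^ (s + 1) := Nat.mul_le_mul (by norm_num) h3
      _ = 2 ^ (20 + (s + 1)) := by rw [← pow_add]
      _ ≤ _ := Nat.pow_le_pow_right (by norm_num) (by omega)
  refine ⟨hu0, ?_, ?_, ?_⟩
  · intro k
    unfold uSq
    rw [aSq_succ]
    have h1 := hu0 k
    set x := aSq K b k with hx
    set U := x / K with hUd
    have h2 : (x + U) / K ≤ U + 1 + U / 100 := by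
      have h3 : x < K * (U + 1) := Nat.lt_mul_div_succ x hK0
      have h4 : U < 100 * (U / 100 + 1) := Nat.lt_mul_div_succ U (by norm_num)
      have h5 : x + U < K * (U + 1 + (U / 100 + 1)) := by
        have h6 : 100 * (U / 100 + 1) ≤ K * (U / 100 + 1) := Nat.mul_le_mul_right _ (by omega)
        rw [mul_add K (U + 1)]
        omega
      have h7 := Nat.div_lt_of_lt_mul h5
      omega
    omega
  · intro k
    unfold uSq
    exact Nat.mul_div_le _ _
  · intro k
    unfold uSq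
    have h1 := hu0 k
    set x := aSq K b k with hx
    set U := x / K with hUd
    have h3 : x < K * (U + 1) := Nat.lt_mul_div_succ x hK0
    have h4 : K * (U + 1) ≤ 2 ^ (s + 6) * U := by
      calc K * (U + 1) ≤ K * (2 * U) := Nat.mul_le_mul_left _ (by omega)
        _ = 2 ^ (s + 6) * U := by rw [hKdef, pow_succ 2 (s + 5)]; ring
    have h5 : Nat.log 2 x ≤ (s + 7) + Nat.log 2 U := by
      have h6 : x < 2 ^ ((s + 7) + Nat.log 2 U) := by
        have h7 : U < 2 ^ (Nat.log 2 U + 1) := Nat.lt_pow_succ_log_self (by norm_num) U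
        calc x < 2 ^ (s + 6) * U := by omega
          _ ≤ 2 ^ (s + 6) * 2 ^ (Nat.log 2 U + 1) := Nat.mul_le_mul_left _ h7.le
          _ = 2 ^ ((s + 7) + Nat.log 2 U) := by
              rw [← pow_add]
              congr 1
              ring
      rcases Nat.eq_zero_or_pos x with h0 | h0
      · rw [h0]
        simp
      · exact (Nat.log_lt_of_lt_pow (by omega) h6).le
    have h9 : 1048576 * (s + 200) ≤ U := hbig.trans h1
    have h8 : 5000 * Nat.log 2 U ≤ U := by
      apply log_le_of_large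
      refine le_trans ?_ h9
      calc 2 ^ 17 ≤ 1048576 * 1 := by norm_num
        _ ≤ 1048576 * (s + 200) := Nat.mul_le_mul_left _ (Nat.le_add_left _ _)
    omega

lemma ntow_aSq {s c : ℕ} {w : ℕ → ℕ} (hs : 320 ≤ s) (hc : 2 ≤ c)
    (hw : ∀ k, w k ≤ wTop (uSq (2 ^ (s + 5)) (2 ^ (9 * s))) k) :
    NTow (aSq (2 ^ (s + 5)) (2 ^ (9 * s))) (uSq (2 ^ (s + 5)) (2 ^ (9 * s)))
      (bN (aSq (2 ^ (s + 5)) (2 ^ (9 * s)))) w (fun _ => 1) (fun _ => c) := by
  obtain ⟨f1, f2, f3, f4⟩ := aSq_facts hs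
  set a := aSq (2 ^ (s + 5)) (2 ^ (9 * s)) with ha
  set u := uSq (2 ^ (s + 5)) (2 ^ (9 * s)) with hu
  have hK : 2 ^ 42 ≤ 2 ^ (s + 5) := Nat.pow_le_pow_right (by norm_num) (by omega)
  have hu1 : ∀ k, 200000 ≤ u k := fun k => by have := f4 k; omega
  have hupos : ∀ k, 0 < u k := fun k => by have := hu1 k; omega
  have hua : ∀ k, u k ≤ a k := fun k =>
    (Nat.le_mul_of_pos_left _ (by positivity)).trans (f3 k)
  have hapos : ∀ k, a k ≠ 0 := fun k => by
    have h1 := hu1 k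
    have h2 := hua k
    omega
  have hlt : ∀ k, a k < 2 ^ (Nat.log 2 (a k) + 1) := fun k =>
    Nat.lt_pow_succ_log_self (by norm_num) _
  -- the size of the top part
  have hla : ∀ k, laT u k * 2 ^ (s + 1) ≤ a k := by
    intro k
    have h1 := laT_le_u f2 k
    have h2 := f3 k
    calc laT u k * 2 ^ (s + 1) ≤ 14 * u k * 2 ^ (s + 1) := Nat.mul_le_mul_right _ h1
      _ = 14 * (u k * 2 ^ (s + 1)) := by ring
      _ ≤ 16 * (u k * 2 ^ (s + 1)) := Nat.mul_le_mul_right _ (by norm_num)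
      _ = 2 ^ (s + 5) * u k := by rw [pow_add 2 s 1, pow_add 2 s 5]; ring
      _ ≤ _ := h2
  have hlapos : ∀ k, laT u k ≠ 0 := fun k => by
    have := hu1 k
    unfold laT
    omega
  have hlog : ∀ k, Nat.log 2 (laT u k) + (s + 1) ≤ Nat.log 2 (a k) := by
    intro k
    apply Nat.le_log_of_pow_le (by norm_num)
    rw [pow_add]
    exact (Nat.mul_le_mul_right _ (Nat.pow_log_le_self 2 (hlapos k))).trans (hla k)
  have hwk : ∀ k, w k ≤ Nat.log 2 (a k) / 2 + 20 := by
    intro k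
    refine (hw k).trans ?_
    have := hlog k
    unfold wTop
    omega
  refine ⟨fun k => rfl, f2, ?_, ?_, ?_, ?_, ?_, fun _ => le_rfl, ?_, fun _ => le_rfl, fun _ => hc⟩
  · intro k
    exact Nat.div_le_div_right (aSq_mono _ _ (Nat.le_succ k))
  · intro k
    rw [mul_one]
    exact (Nat.mul_le_mul_right _ hK).trans (f3 k)
  · intro k
    have h1 := f4 k
    have h2 := hwk k
    unfold bN
    omega
  · intro k
    have h1 := hlt k
    calc a k * 2 ^ 80 ≤ 2 ^ (Nat.log 2 (a k) + 1) * 2 ^ 80 := Nat.mul_le_mul_right _ h1.le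
      _ = 2 ^ (Nat.log 2 (a k) + 1 + 80) := by rw [← pow_add]
      _ ≤ _ := Nat.pow_le_pow_right (by norm_num) (by unfold bN; omega)
  · intro k
    have h1 := hlog k
    have h2 := hw k
    calc 2 ^ (1 + bN a k + w k + 80) ≤ 2 ^ Nat.log 2 (a k) := by
          refine Nat.pow_le_pow_right (by norm_num) ?_
          unfold wTop at h2
          unfold bN
          omega
      _ ≤ a k := Nat.pow_log_le_self 2 (hapos k)
  · intro k
    unfold bN
    have h1 : Nat.log 2 (a k) ≤ Nat.log 2 (a (k + 1)) :=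
      Nat.log_mono_right (aSq_mono _ _ (Nat.le_succ k))
    omega

end Pool.Agent.Helper48.FN
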