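import Pool.Agent.Helper74.FN.St.Stubs
import Pool.Agent.Helper48.FN.LevSeq
import Pool.Agent.Helper48.WR.FinStep
import Pool.Agent.Helper12.FM.A2D0

/-!
# Project FN, D1, part 2: one level, counting
-/

set_option autoImplicit false

namespace Pool.Agent.Helper48.FN

open Finset
open Pool.Agent.Helper53.WR
open Pool.Agent.Helper53.FM (BCov blockMax)
open Pool.Agent.Helper74.FN
open Pool.Agent.Helper48.FB (win crossF Cs Fs)
open Pool.Agent.Helper48.WR (aSq uSq aSq_zero aSq_succ aSq_mono le_aSq aSq_add cut mem_cut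
  repF_cut_le repF_cut_zero lt_of_aSq_le sum_u_le)

/-- The statement of one level. -/
def LevN (W c F X J : ℕ) : Prop :=
  ∃ (T : Finset ℕ) (T' B : ℕ → Finset ℕ) (g : ℕ → ℕ),
    NTop J (Cs * (J + 1)) (min (Nat.log 2 J / 2 + 20) W) c (fun R => (R + 1) * F) g T T' B ∧
    ∑ j ∈ range J, g j ≤ F * J ∧
    ∀ R, (B R).card * (R + 1) ≤ X * J ∧ ∀ j ∈ B R, j < J

lemma winB_mono {A : Finset ℕ} {j0 j1 W W' L L' : ℕ} (h : WinB A j0 W L) (hj : j0 ≤ j1)
    (hW : W ≤ W') (hL : L ≤ L') : WinB A j1 W' L' := fun y l hy hl =>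
  (h y l ((Nat.pow_le_pow_right (by norm_num) hj).trans hy) hl).trans
    (Nat.add_le_add (Nat.mul_le_mul_right _ hW) (Nat.mul_le_mul_right _ hL))

lemma ntop_mono {J F w w' c c' : ℕ} {f f' g : ℕ → ℕ} {T : Finset ℕ} {T' B : ℕ → Finset ℕ}
    (h : NTop J F w c f g T T' B) (hf : ∀ i, f i ≤ f' i) (hw : w ≤ w') (hc : c ≤ c') :
    NTop J F w' c' f' g T T' B := by
  refine ⟨h.sub, h.lt, h.zo, ?_, h.rep, fun i n => (h.rep' i n).trans (hf i),
    winB_mono h.wn le_rfl (Nat.pow_le_pow_right (by norm_num) hw) le_rfl, h.prof, ?_⟩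
  · intro n h1 h2
    obtain ⟨x, hx, y, hy, h3, h4, h5⟩ := h.cov n h1 h2
    exact ⟨x, hx, y, hy, h3, h4.trans (Nat.mul_le_mul_right _ hc),
      h5.trans (Nat.mul_le_mul_right _ hc)⟩
  · intro i j h1 h2 h3 n h4 h5
    obtain ⟨x, hx, y, hy, h6, h7, h8⟩ := h.good i j h1 h2 h3 n h4 h5
    exact ⟨x, hx, y, hy, h6, h7.trans (Nat.mul_le_mul_right _ hc),
      h8.trans (Nat.mul_le_mul_right _ hc)⟩

lemma LevN.mono {W W' c c' F F' X X' J : ℕ} (h : LevN W c F X J) (hW : W ≤ W') (hc : c ≤ c')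
    (hF : F ≤ F') (hX : X ≤ X') : LevN W' c' F' X' J := by
  obtain ⟨T, T', B, g, h1, h2, h3⟩ := h
  exact ⟨T, T', B, g, ntop_mono h1 (fun i => Nat.mul_le_mul_left _ hF)
      (min_le_min le_rfl hW) hc,
    h2.trans (Nat.mul_le_mul_right _ hF),
    fun R => ⟨(h3 R).1.trans (Nat.mul_le_mul_right _ hX), (h3 R).2⟩⟩

lemma lev_base {s J : ℕ} (hs : 40 ≤ s) (hJ : 100 ≤ J) (hJ2 : J ≤ 2 ^ (11 * s)) :
    LevN (6 * s) 4 (Cs * (2 ^ (11 * s) + 1)) 0 J := by
  obtain ⟨T, hT⟩ := Pool.Agent.Helper74.FN.St.ntop_base J hJ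
  have h1 : Nat.log 2 J ≤ 11 * s := by
    calc Nat.log 2 J ≤ Nat.log 2 (2 ^ (11 * s)) := Nat.log_mono_right hJ2
      _ = 11 * s := Nat.log_pow (by norm_num) _
  have h5 : Cs * (J + 1) ≤ Cs * (2 ^ (11 * s) + 1) := Nat.mul_le_mul_left _ (by omega)
  refine ⟨T, fun _ => T, fun _ => ∅, fun _ => Cs * (J + 1), ntop_mono hT ?_
    (le_min le_rfl (by omega)) le_rfl, ?_, ?_⟩
  · intro i
    exact h5.trans (Nat.le_mul_of_pos_left _ (by omega))
  · rw [sum_const, card_range, smul_eq_mul, mul_comm]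
    exact Nat.mul_le_mul_right _ h5
  · intro R
    simp

/-- The finite parts of a basis. -/
lemma ntop_of (A : Set ℕ) (J W cc F : ℕ) (A' : ℕ → Set ℕ) (B' : ℕ → Finset ℕ)
    (hsub : ∀ R, A' R ⊆ A) (h01 : 0 ∈ A ∧ 1 ∈ A) (hJ : 1 ≤ J)
    (hcov : ∀ n, 2 ≤ n → n < 2 ^ J → ∃ x ∈ A, ∃ y ∈ A, x + y = n ∧ n ≤ cc * x ∧ n ≤ cc * y)
    (hrep : ∀ n, n < 2 ^ (J + 1) → rep A n ≤ Cs * (J + 1))
    (hrep' : ∀ R n, n < 2 ^ (J + 1) → rep (A' R) n ≤ (R + 1) * F)
    (hwin : WinB (cut A J) (J / 2) (2 ^ W) (Cs * (J + 1)))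
    (hgood : ∀ R j, 1 ≤ j → j < J → j ∉ B' R → BCov (A' R) cc j) :
    NTop J (Cs * (J + 1)) W cc (fun R => (R + 1) * F) (blockMax A) (cut A J)
      (fun R => cut (A' R) J) B' := by
  have h2J : 1 < 2 ^ J := Nat.one_lt_pow (by omega) (by norm_num)
  refine ⟨?_, ?_, ?_, ?_, ?_, ?_, hwin, ?_, ?_⟩
  · intro R x hx
    rw [mem_cut] at hx ⊢
    exact ⟨hx.1, hsub R hx.2⟩
  · exact fun x hx => (mem_cut.1 hx).1
  · exact ⟨mem_cut.2 ⟨by omega, h01.1⟩, mem_cut.2 ⟨h2J, h01.2⟩⟩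
  · intro n h1 h2
    obtain ⟨x, hx, y, hy, h3, h4, h5⟩ := hcov n h1 h2
    exact ⟨x, mem_cut.2 ⟨by omega, hx⟩, y, mem_cut.2 ⟨by omega, hy⟩, h3, h4, h5⟩
  · intro n
    rcases lt_or_ge n (2 ^ (J + 1)) with hn | hn
    · exact (repF_cut_le A J n).trans (hrep n hn)
    · rw [repF_cut_zero A hn]
      exact Nat.zero_le _
  · intro R n
    rcases lt_or_ge n (2 ^ (J + 1)) with hn | hn
    · exact (repF_cut_le (A' R) J n).trans (hrep' R n hn)
    · rw [repF_cut_zero (A' R) hn]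
      exact Nat.zero_le _
  · intro j n h1 h2
    refine (repF_cut_le A J n).trans ?_
    unfold blockMax
    exact Finset.le_sup (f := fun n => rep A n) (mem_Ico.2 ⟨h1, h2⟩)
  · intro R j h1 h2 h3 n h4 h5
    obtain ⟨x, hx, y, hy, h6, h7, h8⟩ := hgood R j h1 h2 h3 n h4 h5
    have h9 : 2 ^ (j + 1) ≤ 2 ^ J := Nat.pow_le_pow_right (by norm_num) h2
    refine ⟨x, ?_, y, ?_, h6, h7, h8⟩
    · rw [Finset.mem_coe, mem_cut]
      exact ⟨by omega, hx⟩
    · rw [Finset.mem_coe, mem_cut]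
      exact ⟨by omega, hy⟩

lemma exists_between {S : ℕ → ℕ} (hS : ∀ k, k ≤ S k) {j : ℕ} (hj : S 0 ≤ j) :
    ∃ k, S k ≤ j ∧ j < S (k + 1) := by
  classical
  have hex : ∃ k, j < S (k + 1) := ⟨j, by have := hS (j + 1); omega⟩
  have h2 := Nat.find_spec hex
  refine ⟨Nat.find hex, ?_, h2⟩
  by_contra hcon
  push Not at hcon
  have h3 : Nat.find hex ≠ 0 := by
    intro h0
    rw [h0] at hcon
    omega
  have h4 := Nat.find_min hex (m := Nat.find hex - 1) (by omega)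
  apply h4
  have h5 : Nat.find hex - 1 + 1 = Nat.find hex := by omega
  rw [h5]
  exact hcon

lemma four_a_le {a u : ℕ → ℕ} (hu : ∀ k, 100 ≤ u k) (k : ℕ) : 4 * a k + 7 * u k ≤ sN a u k := by
  have := hu k
  unfold sN
  omega

lemma le_a {a u : ℕ → ℕ} (hstep : ∀ k, a (k + 1) = a k + u k) (hu : ∀ k, 100 ≤ u k) (k : ℕ) :
    k ≤ a k := by
  induction k with
  | zero => exact Nat.zero_le _
  | succ k ih =>
    have h1 := hstep k
    have h2 := hu k
    omega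

lemma le_sN {a u : ℕ → ℕ} (hstep : ∀ k, a (k + 1) = a k + u k) (hu : ∀ k, 100 ≤ u k) (k : ℕ) :
    k ≤ sN a u k := by
  have h1 := le_a hstep hu k
  have h2 := four_a_le (a := a) hu k
  omega

lemma exists_sN {a u : ℕ → ℕ} (hstep : ∀ k, a (k + 1) = a k + u k) (hu : ∀ k, 100 ≤ u k)
    {J : ℕ} (hJ : sN a u 0 < J) : ∃ k, sN a u k < J ∧ J ≤ sN a u (k + 1) := by
  obtain ⟨k, h1, h2⟩ := exists_between (S := sN a u) (j := J - 1) (le_sN hstep hu) (by omega)
  exact ⟨k, by omega, by omega⟩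

/-- The bound `r ≤ Cs * J` below `2 ^ J`. -/
lemma rep_le_of_tower {a u : ℕ → ℕ} (hstep : ∀ k, a (k + 1) = a k + u k) (hu : ∀ k, 100 ≤ u k)
    {A : Set ℕ} (hA0 : ∀ n, n < 2 ^ sN a u 0 → rep A n ≤ Cs * a 0)
    (hA : ∀ k n, 2 ^ sN a u k ≤ n → n < 2 ^ sN a u (k + 1) →
      rep A n ≤ Rb a (fun _ => 1) k + 2 ^ 63 * (a k / (fun _ => 1) k)) {J n : ℕ}
    (hJ : sN a u 0 < J) (hn : n < 2 ^ J) : rep A n ≤ Cs * J := by
  have h0 := four_a_le (a := a) hu 0
  rcases lt_or_ge n (2 ^ sN a u 0) with h1 | h1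
  · exact (hA0 n h1).trans (Nat.mul_le_mul_left _ (by omega))
  · have hmono : ∀ k, 2 ^ sN a u k ≤ n → n < 2 ^ sN a u (k + 1) → sN a u k < J := by
      intro k hk _
      exact (Nat.pow_lt_pow_iff_right (by norm_num)).1 (hk.trans_lt hn)
    have hn0 : n ≠ 0 := by
      have : 0 < 2 ^ sN a u 0 := by positivity
      omega
    obtain ⟨k, hk1, hk2⟩ := exists_between (S := sN a u) (j := Nat.log 2 n) (le_sN hstep hu)
      (Nat.le_log_of_pow_le (by norm_num) h1)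
    have hk3 : 2 ^ sN a u k ≤ n :=
      (Nat.pow_le_pow_right (by norm_num) hk1).trans (Nat.pow_log_le_self 2 hn0)
    have hk4 : n < 2 ^ sN a u (k + 1) :=
      (Nat.lt_pow_succ_log_self (by norm_num) n).trans_le
        (Nat.pow_le_pow_right (by norm_num) hk2)
    have h2 := hmono k hk3 hk4
    have h3 := four_a_le (a := a) hu k
    refine (hA k n hk3 hk4).trans ?_
    have h4 : Rb a (fun _ => 1) k ≤ 2 ^ 64 * a k := by
      rcases k with _ | k
      · exact le_rfl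
      · show 2 ^ 63 * (a k / 1) ≤ 2 ^ 64 * a (k + 1)
        have h5 := hstep k
        rw [Nat.div_one]
        exact Nat.mul_le_mul (by norm_num) (by omega)
    have h5 : 2 ^ 63 * (a k / (fun _ => 1) k) = 2 ^ 63 * a k := by
      show 2 ^ 63 * (a k / 1) = _
      rw [Nat.div_one]
    rw [h5]
    calc Rb a (fun _ => 1) k + 2 ^ 63 * a k ≤ 2 ^ 64 * a k + 2 ^ 64 * a k :=
          Nat.add_le_add h4 (Nat.mul_le_mul_right _ (by norm_num))
      _ = 2 ^ 64 * (2 * a k) := by ring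
      _ ≤ 2 ^ 64 * J := Nat.mul_le_mul_left _ (by omega)

/-- The exceptional blocks of a thin part below `J`. -/
def badN (a u : ℕ → ℕ) (lg : ℕ) (v : ℕ → ℕ) (B : ℕ → Finset ℕ) (J : ℕ) (Ks : Finset ℕ) :
    Finset ℕ :=
  (range J).filter (fun j => j ∈ range (sN a u 0 + 9 + v 0 + lg) ∪
    Ks.biUnion (fun k => ((range 6).biUnion (fun i => (B k).image (fun t => t + 4 * a k + i))) ∪
      Ico (sN a u (k + 1)) (sN a u (k + 1) + (9 + v (k + 1) + lg))))

lemma badN_card_le (a u : ℕ → ℕ) (lg : ℕ) (v : ℕ → ℕ) (B : ℕ → Finset ℕ) (J : ℕ)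
    (Ks : Finset ℕ) : (badN a u lg v B J Ks).card ≤ sN a u 0 + 9 + v 0 + lg +
      ∑ k ∈ Ks, (6 * (B k).card + (9 + v (k + 1) + lg)) := by
  unfold badN
  have hsub : ∀ (U : Finset ℕ), (range J).filter (fun j => j ∈ U) ⊆ U := by
    intro U j hj
    exact (mem_filter.1 hj).2
  refine le_trans (card_le_card (hsub _)) ?_
  refine le_trans (card_union_le _ _) ?_
  rw [card_range]
  refine Nat.add_le_add_left ?_ _
  refine le_trans card_biUnion_le ?_
  refine sum_le_sum fun k _ => ?_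
  refine le_trans (card_union_le _ _) ?_
  rw [Nat.card_Ico, Nat.add_sub_cancel_left]
  refine Nat.add_le_add_right ?_ _
  refine le_trans card_biUnion_le ?_
  refine le_trans (sum_le_card_nsmul _ _ (B k).card fun i _ => card_image_le) ?_
  rw [card_range, smul_eq_mul]

lemma good_of_notMem {a u : ℕ → ℕ} (hstep : ∀ k, a (k + 1) = a k + u k) (hu : ∀ k, 100 ≤ u k)
    {lg : ℕ} {v : ℕ → ℕ}
    {B : ℕ → Finset ℕ} {J : ℕ} {Ks : Finset ℕ} (hK : ∀ k, 4 * a k ≤ J → k ∈ Ks) {j : ℕ}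
    (hjJ : j < J) (hj : j ∉ badN a u lg v B J Ks) : ∃ k, 4 * a k ≤ J ∧
      sN a u k + 9 + v k + lg ≤ j ∧ j + 1 ≤ sN a u (k + 1) ∧
      ∀ i, i ≤ 5 → j - 4 * a k - i ∉ B k := by
  unfold badN at hj
  rw [mem_filter, mem_range, not_and, mem_union, not_or, mem_range, mem_biUnion] at hj
  obtain ⟨hj1, hj2⟩ := hj hjJ
  push Not at hj1 hj2
  obtain ⟨k, hk1, hk2⟩ := exists_between (S := fun k => sN a u k + 9 + v k + lg)
    (fun k => by have := le_sN hstep hu k; omega) hj1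
  have h0 := four_a_le (a := a) hu k
  have hkJ : 4 * a k ≤ J := by omega
  have h2 := hj2 k (hK k hkJ)
  rw [mem_union, not_or, mem_biUnion, mem_Ico, not_and] at h2
  obtain ⟨h3, h4⟩ := h2
  push Not at h3 h4
  have h5 : j + 1 ≤ sN a u (k + 1) := by
    by_contra hc
    push Not at hc
    have := h4 (by omega)
    omega
  refine ⟨k, hkJ, hk1, h5, ?_⟩
  intro i hi hB
  have h6 := h3 i (mem_range.2 (by omega))
  apply h6
  rw [mem_image]
  refine ⟨j - 4 * a k - i, hB, ?_⟩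
  have g1 := hu k
  omega

lemma sum_shift_le (g : ℕ → ℕ) (S : Finset ℕ) (b D : ℕ) (hS : ∀ j ∈ S, b ≤ j ∧ j - b < D) :
    ∑ j ∈ S, g (j - b) ≤ ∑ i ∈ range D, g i := by
  have hinj : Set.InjOn (fun j => j - b) (S : Set ℕ) := by
    intro x hx y hy hxy
    have h1 := (hS x hx).1
    have h2 := (hS y hy).1
    simp only at hxy
    omega
  calc ∑ j ∈ S, g (j - b) = ∑ i ∈ S.image (fun j => j - b), g i :=
        (sum_image (f := g) hinj).symm
    _ ≤ ∑ i ∈ range D, g i := by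
        apply sum_le_sum_of_subset
        intro i hi
        obtain ⟨j, hj, rfl⟩ := mem_image.1 hi
        exact mem_range.2 (hS j hj).2

/-- The sum of the block maxima of a tower. -/
lemma sum_blockMax_le {a u : ℕ → ℕ} (hstep : ∀ k, a (k + 1) = a k + u k) (hu : ∀ k, 100 ≤ u k)
    {g : ℕ → ℕ → ℕ} {A : Set ℕ}
    (hA0 : ∀ n, n < 2 ^ sN a u 0 → rep A n ≤ Cs * a 0)
    (hA : ∀ k n, 2 ^ sN a u k ≤ n → n < 2 ^ sN a u (k + 1) →
      rep A n ≤ Rb a (fun _ => 1) k + 2 ^ 63 * (a k / (fun _ => 1) k))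
    (hprof : ∀ k j G, sN a u k + 21 ≤ j → j + 1 ≤ sN a u (k + 1) →
        (∀ l, l ≤ 5 → g k (j - 4 * a k - l) ≤ G) → ∀ n, 2 ^ j ≤ n → n < 2 ^ (j + 1) →
          rep A n ≤ 4096 ^ 2 * 2592 * G
            + 2 * (4096 * (tN (a k) ((fun _ => 1) k) (j - sN a u k) * D0)))
    {J : ℕ} (hJ : sN a u 0 < J) {Ks : Finset ℕ} (hK : ∀ k, 4 * a k ≤ J → k ∈ Ks) :
    ∑ j ∈ range J, blockMax A j ≤
      (badN a u 0 (fun _ => 12) (fun _ => ∅) J Ks).card * (Cs * (J + 1)) +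
      ∑ k ∈ Ks, (4096 ^ 2 * 2592 * (6 * ∑ i ∈ range (laT u k), g k i) +
        2 * (4096 * D0) * (44 * a k * (Nat.log 2 J + 1) + J)) := by
  classical
  set E := badN a u 0 (fun _ => 12) (fun _ => ∅) J Ks with hE
  let P : ℕ → ℕ → Prop := fun k j => sN a u k + 21 ≤ j ∧ j + 1 ≤ sN a u (k + 1)
  let H : ℕ → ℕ → ℕ := fun k j =>
    4096 ^ 2 * 2592 * (∑ l ∈ range 6, g k (j - (4 * a k + l)))
      + 2 * (4096 * (tN (a k) 1 (j - sN a u k) * D0))
  have hmain : ∀ j ∈ range J, blockMax A j ≤ (if j ∈ E then Cs * (J + 1) else 0) +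
      ∑ k ∈ Ks, (if P k j then H k j else 0) := by
    intro j hj
    have hjJ := mem_range.1 hj
    by_cases hjE : j ∈ E
    · rw [if_pos hjE]
      refine le_trans ?_ (Nat.le_add_right _ _)
      unfold blockMax
      refine Finset.sup_le fun n hn => ?_
      have h1 := (mem_Ico.1 hn).2
      have h2 : n < 2 ^ J := lt_of_lt_of_le h1 (Nat.pow_le_pow_right (by norm_num) hjJ)
      exact (rep_le_of_tower hstep hu hA0 hA hJ h2).trans (Nat.mul_le_mul_left _ (by omega))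
    · rw [if_neg hjE, zero_add]
      obtain ⟨k, hkJ, hk1, hk2, -⟩ := good_of_notMem hstep hu hK hjJ hjE
      have hP : P k j := ⟨by omega, hk2⟩
      refine le_trans ?_ (single_le_sum (f := fun k => if P k j then H k j else 0)
        (fun _ _ => Nat.zero_le _) (hK k hkJ))
      show blockMax A j ≤ if P k j then H k j else 0
      rw [if_pos hP]
      unfold blockMax
      refine Finset.sup_le fun n hn => ?_
      obtain ⟨h1, h2⟩ := mem_Ico.1 hn
      refine hprof k j _ hP.1 hP.2 (fun l hl => ?_) n h1 h2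
      have h3 : j - 4 * a k - l = j - (4 * a k + l) := by omega
      rw [h3]
      exact single_le_sum (f := fun l => g k (j - (4 * a k + l))) (fun _ _ => Nat.zero_le _)
        (mem_range.2 (by omega))
  refine (sum_le_sum hmain).trans ?_
  rw [sum_add_distrib]
  refine Nat.add_le_add ?_ ?_
  · rw [← sum_filter, sum_const, smul_eq_mul]
    refine Nat.mul_le_mul_right _ (card_le_card ?_)
    intro j hj
    exact (mem_filter.1 hj).2
  · rw [sum_comm]
    refine sum_le_sum fun k _ => ?_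
    rw [← sum_filter]
    set S := (range J).filter (fun j => P k j) with hS
    have hSm : ∀ j ∈ S, j < J ∧ sN a u k + 21 ≤ j ∧ j + 1 ≤ sN a u (k + 1) := by
      intro j hj
      have := mem_filter.1 hj
      exact ⟨mem_range.1 this.1, this.2.1, this.2.2⟩
    have h0 := four_a_le (a := a) hu k
    have g0 := hu k
    have hz : sN a u (k + 1) ≤ 4 * a k + laT u k := by
      have h1 := hstep k
      have h2 := hu (k + 1)
      unfold sN laT
      omega
    have h1 : ∑ j ∈ S, (∑ l ∈ range 6, g k (j - (4 * a k + l)))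
        ≤ 6 * ∑ i ∈ range (laT u k), g k i := by
      rw [sum_comm]
      calc ∑ l ∈ range 6, ∑ j ∈ S, g k (j - (4 * a k + l))
          ≤ ∑ l ∈ range 6, ∑ i ∈ range (laT u k), g k i := by
            refine sum_le_sum fun l hl => ?_
            refine sum_shift_le (g k) S _ _ fun j hj => ?_
            obtain ⟨g1, g2, g3⟩ := hSm j hj
            have g4 := mem_range.1 hl
            omega
        _ = 6 * ∑ i ∈ range (laT u k), g k i := by rw [sum_const, card_range, smul_eq_mul]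
    have h2 : ∑ j ∈ S, tN (a k) 1 (j - sN a u k)
        ≤ 44 * a k * (Nat.log 2 J + 1) + J := by
      refine (sum_shift_le _ S _ J fun j hj => ?_).trans
        (Pool.Agent.Helper12.FM.sum_tD_le (a k) 1 J le_rfl)
      obtain ⟨g1, g2, g3⟩ := hSm j hj
      omega
    calc ∑ j ∈ S, H k j
        = 4096 ^ 2 * 2592 * ∑ j ∈ S, (∑ l ∈ range 6, g k (j - (4 * a k + l)))
          + 2 * (4096 * D0) * ∑ j ∈ S, tN (a k) 1 (j - sN a u k) := by
          simp only [H]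
          rw [sum_add_distrib, mul_sum, mul_sum, Nat.add_left_cancel_iff]
          refine sum_congr rfl fun j _ => ?_
          ring
      _ ≤ 4096 ^ 2 * 2592 * (6 * ∑ i ∈ range (laT u k), g k i)
          + 2 * (4096 * D0) * (44 * a k * (Nat.log 2 J + 1) + J) :=
          Nat.add_le_add (Nat.mul_le_mul_left _ h1) (Nat.mul_le_mul_left _ h2)

end Pool.Agent.Helper48.FN
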