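import Pool.Agent.Helper48.FN.LevStep

/-!
# Project FN, D1, part 3: one level, numbers
-/

set_option autoImplicit false

namespace Pool.Agent.Helper48.FN

open Finset
open Pool.Agent.Helper53.WR
open Pool.Agent.Helper53.FM (BCov blockMax)
open Pool.Agent.Helper74.FN
open Pool.Agent.Helper48.FB (win crossF Cs Fs)
open Pool.Agent.Helper48.FM (laT_le_u)
open Pool.Agent.Helper48.WR (aSq uSq aSq_zero aSq_succ aSq_mono le_aSq aSq_add cut mem_cut
  repF_cut_le repF_cut_zero lt_of_aSq_le sum_u_le)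

lemma sq_le_two_pow {s : ℕ} (hs : 100 ≤ s) : s ^ 2 ≤ 2 ^ s :=
  (Pool.Agent.Helper48.WR.num_facts hs).1

lemma tN_le_of (a R : ℕ) : tN a 1 (a / (R + 1) + 21) ≤ 45 * (R + 1) := by
  unfold tN
  have h1 : a < (R + 1) * (a / (R + 1) + 1) := Nat.lt_mul_div_succ a (by omega)
  have h2 : 44 * a / (1 + (a / (R + 1) + 21)) ≤ 44 * (R + 1) := by
    apply Nat.div_le_of_le_mul
    calc 44 * a ≤ 44 * ((R + 1) * (a / (R + 1) + 1)) := Nat.mul_le_mul_left _ h1.le
      _ = (a / (R + 1) + 1) * (44 * (R + 1)) := by ring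
      _ ≤ (1 + (a / (R + 1) + 21)) * (44 * (R + 1)) := Nat.mul_le_mul_right _ (by omega)
  omega

/-- One level. -/
theorem level_step4 {s W c F X J : ℕ} (hs : 320 ≤ s) (hc : 4 ≤ c)
    (hcs : Nat.log 2 c ≤ s) (hJ0 : 2 ^ (11 * s) < J) (hJ : J ≤ 2 ^ s ^ 2)
    (hT : ∀ L, 100 ≤ L → L * 2 ^ s ≤ J → LevN W c F X L) :
    LevN (W + 32) (2 * c) (2 ^ 43 * F + 2 ^ (12 * s)) (84 * X + 2 ^ (3 * s)) J := by
  classical
  have hs2 := sq_le_two_pow (show 100 ≤ s by omega)
  obtain ⟨f1, f2, f3, f4⟩ := aSq_facts hs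
  set K := 2 ^ (s + 5) with hK
  set b := 2 ^ (9 * s) with hb
  set N := 2 * K * s ^ 2 with hN
  have hK42 : 2 ^ 42 ≤ K := Nat.pow_le_pow_right (by norm_num) (by omega)
  have hK0 : 0 < K := by positivity
  set a := aSq K b with ha
  set u := uSq K b with hu
  let w : ℕ → ℕ := fun k => if 4 * a k ≤ J then min (Nat.log 2 (laT u k) / 2 + 20) W
    else wTop u k
  have hwle : ∀ k, w k ≤ wTop u k := by
    intro k
    simp only [w]
    split_ifs
    · exact min_le_left _ _
    · exact le_rfl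
  have hTow := ntow_aSq (c := c) (w := w) hs (by omega) hwle
  rw [← hK, ← hb, ← ha, ← hu] at hTow
  have hstep : ∀ k, a (k + 1) = a k + u k := hTow.step
  have hu2 : ∀ k, 200000 ≤ u k := fun k => by have := f4 k; omega
  have hu1 : ∀ k, 100 ≤ u k := fun k => by have := hu2 k; omega
  have hua : ∀ k, u k ≤ a k := fun k => (Nat.le_mul_of_pos_left _ hK0).trans (f3 k)
  have hla14 : ∀ k, laT u k ≤ 14 * u k := fun k => laT_le_u f2 k
  have huK : ∀ k, u k * K ≤ a k := fun k => by
    have := f3 k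
    rw [mul_comm] at this
    exact this
  have hamono : Monotone a := aSq_mono K b
  have humono : Monotone u := monotone_nat_of_le_succ hTow.uu'
  -- the number of worlds
  have hbK : K ≤ b := Nat.pow_le_pow_right (by norm_num) (by omega)
  have hb1 : 1 ≤ b := Nat.one_le_two_pow
  have hJpos : 0 < J := lt_of_le_of_lt (Nat.zero_le _) hJ0
  have hworlds : ∀ k, 4 * a k ≤ J → k < N := by
    intro k hk
    have hk4 : a k ≤ J / 4 := by
      rw [Nat.le_div_iff_mul_le (by norm_num)]
      omega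
    refine lt_of_aSq_le (r := s ^ 2) hK0 hbK ?_ hk4
    have h1 : J / 4 < J := Nat.div_lt_self hJpos (by norm_num)
    have h2 : 2 ^ s ^ 2 * 1 ≤ 2 ^ s ^ 2 * b := Nat.mul_le_mul_left _ hb1
    omega
  have hN2 : N ≤ 2 ^ (2 * s + 6) := by
    rw [hN]
    calc 2 * K * s ^ 2 ≤ 2 * K * 2 ^ s := Nat.mul_le_mul_left _ hs2
      _ = 2 ^ (1 + (s + 5) + s) := by rw [hK, pow_add 2 (1 + (s + 5)), pow_add 2 1, pow_one]
      _ = 2 ^ (2 * s + 6) := by congr 1; ring
  -- the top sets
  have hla : ∀ k, 4 * a k ≤ J → laT u k * 2 ^ s ≤ J := by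
    intro k hk
    have h2 := hla14 k
    have h3 := huK k
    have h4 : u k * 2 ^ s * 32 ≤ a k := by
      calc u k * 2 ^ s * 32 = u k * K := by rw [hK, pow_add]; ring
        _ ≤ a k := h3
    calc laT u k * 2 ^ s ≤ 14 * u k * 2 ^ s := Nat.mul_le_mul_right _ h2
      _ = 14 * (u k * 2 ^ s) := by ring
      _ ≤ J := by omega
  have hla100 : ∀ k, 100 ≤ laT u k := by
    intro k
    have := hu1 k
    unfold laT
    omega
  let f : ℕ → ℕ → ℕ := fun k => if 4 * a k ≤ J then (fun R => (R + 1) * F)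
    else (fun _ => Cs * (laT u k + 1))
  have hex : ∀ k, ∃ (T : Finset ℕ) (T' B : ℕ → Finset ℕ) (g : ℕ → ℕ),
      NTop (laT u k) (Fs u k) (w k) c (f k) g T T' B ∧
      (4 * a k ≤ J → ∑ j ∈ range (laT u k), g j ≤ F * laT u k ∧
        ∀ R, (B R).card * (R + 1) ≤ X * laT u k) := by
    intro k
    by_cases hk : 4 * a k ≤ J
    · obtain ⟨T, T', B, g, h1, h2, h3⟩ := hT (laT u k) (hla100 k) (hla k hk)
      refine ⟨T, T', B, g, ?_, fun _ => ⟨h2, fun R => (h3 R).1⟩⟩
      simp only [f, w]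
      rw [if_pos hk, if_pos hk]
      exact h1
    · obtain ⟨T, hT⟩ := Pool.Agent.Helper74.FN.St.ntop_base (laT u k) (hla100 k)
      refine ⟨T, fun _ => T, fun _ => ∅, fun _ => Cs * (laT u k + 1), ?_, fun h => absurd h hk⟩
      simp only [f, w]
      rw [if_neg hk, if_neg hk]
      exact ntop_mono hT (fun _ => le_rfl) le_rfl hc
  choose T T' B g hT1 hT2 using hex
  obtain ⟨A, h01, hcov, hrep0, hrep, hprof, hwin, hthin⟩ :=
    Pool.Agent.Helper74.FN.St.ntower hTow f g T T' B hT1
  choose A1 hA1sub hA1zero hA1rep hA1good using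
    fun R : ℕ => hthin (fun _ => R) (fun k => a k / (R + 1) + 21)
      (fun k => Nat.le_add_left _ _)
  set Ks := (range N).filter (fun k => 4 * a k ≤ J) with hKs
  have hKJ : ∀ k ∈ Ks, 4 * a k ≤ J := fun k hk => (mem_filter.1 hk).2
  have hKN : ∀ k ∈ Ks, k < N := fun k hk => mem_range.1 (mem_filter.1 hk).1
  have hKsN : ∀ k, 4 * a k ≤ J → k ∈ Ks := fun k hk => by
    rw [hKs, mem_filter, mem_range]; exact ⟨hworlds k hk, hk⟩
  have hcard : Ks.card ≤ N := by
    calc Ks.card ≤ (range N).card := card_filter_le _ _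
      _ = N := card_range N
  have hcard' : Ks.card ≤ 2 ^ (2 * s + 6) := hcard.trans hN2
  have ha0 : a 0 = b := rfl
  have h10s : 16 * b ≤ 2 ^ (11 * s) := by
    calc 16 * b = 2 ^ 4 * 2 ^ (9 * s) := by rw [hb]; norm_num
      _ = 2 ^ (4 + 9 * s) := by rw [← pow_add]
      _ ≤ _ := Nat.pow_le_pow_right (by norm_num) (by omega)
  have hu0 : 64 * u 0 ≤ b := by
    have h1 := f3 0
    have h2 : 64 * u 0 ≤ K * u 0 := Nat.mul_le_mul_right _ (by omega)
    exact h2.trans h1
  have hstart : sN a u 0 + 9 ≤ 5 * b := by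
    unfold sN
    omega
  have hzR0 : sN a u 0 < J := by omega
  -- the profile
  have hlogJ : Nat.log 2 J ≤ s ^ 2 := by
    calc Nat.log 2 J ≤ Nat.log 2 (2 ^ s ^ 2) := Nat.log_mono_right hJ
      _ = s ^ 2 := Nat.log_pow (by norm_num) _
  have hsumu := (sum_u_le hstep hua J N).trans (min_le_right _ _)
  rw [← hKs] at hsumu
  have h2J : ∀ k, 4 * a k ≤ J → a (k + 1) ≤ J := by
    intro k hk
    have h1 := hstep k
    have h2 := hua k
    omega
  -- the thin parts
  let small : ℕ → Prop := fun R => (R + 1) * 2 ^ (9 * s + 4) ≤ J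
  let A' : ℕ → Set ℕ := fun R => if small R then A1 R else A
  let B' : ℕ → Finset ℕ := fun R => if small R then
    badN a u (Nat.log 2 c) (fun k => a k / (R + 1) + 21) (fun k => B k R) J Ks else ∅
  have hrepA : ∀ n, n < 2 ^ (J + 1) → rep A n ≤ Cs * (J + 1) := fun n hn =>
    rep_le_of_tower hstep hu1 hrep0 hrep (J := J + 1) (by omega) hn
  have hD0 : D0 = 2 ^ 16 := rfl
  refine ⟨cut A J, fun R => cut (A' R) J, B', blockMax A, ?_, ?_, ?_⟩
  · refine ntop_of A J _ _ _ A' B' ?_ h01 (by omega) ?_ hrepA ?_ ?_ ?_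
    · intro R
      simp only [A']
      split_ifs
      · exact hA1sub R
      · exact subset_rfl
    · intro n h1 h2
      obtain ⟨k, hk1, hk2⟩ := exists_sN hstep hu1 hzR0
      exact hcov (k + 1) n h1 (lt_of_lt_of_le h2 (Nat.pow_le_pow_right (by norm_num) hk2))
    · intro R n hn
      simp only [A']
      split_ifs with hR
      · rcases lt_or_ge n (2 ^ (sN a u 0 + 21)) with h0 | h0
        · rw [hA1zero R n h0]
          exact Nat.zero_le _
        have hn0 : n ≠ 0 := by
          have : 0 < 2 ^ (sN a u 0 + 21) := by positivity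
          omega
        obtain ⟨k, hk1, hk2⟩ := exists_between (S := fun k => sN a u k + 21)
          (j := Nat.log 2 n) (fun k => by have := le_sN hstep hu1 k; omega)
          (Nat.le_log_of_pow_le (by norm_num) h0)
        have hk3 : 2 ^ (sN a u k + 21) ≤ n :=
          (Nat.pow_le_pow_right (by norm_num) hk1).trans (Nat.pow_log_le_self 2 hn0)
        have hk4 : n < 2 ^ (sN a u (k + 1) + 21) :=
          (Nat.lt_pow_succ_log_self (by norm_num) n).trans_le
            (Nat.pow_le_pow_right (by norm_num) hk2)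
        have hkJ : 4 * a k ≤ J := by
          have h1 : 2 ^ (sN a u k + 21) < 2 ^ (J + 1) := lt_of_le_of_lt hk3 hn
          have h2 := (Nat.pow_lt_pow_iff_right (by norm_num)).1 h1
          have h3 := four_a_le (a := a) hu1 k
          omega
        refine (hA1rep R k n hk3 hk4).trans ?_
        simp only [f]
        rw [if_pos hkJ]
        have g1 : tN (a k) 1 (a k / (R + 1) + 21) ≤ 45 * (R + 1) := tN_le_of _ _
        have g3 : 2 * (4096 * (45 * (R + 1) * D0)) ≤ (R + 1) * 2 ^ (12 * s) := by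
          calc 2 * (4096 * (45 * (R + 1) * D0))
              = (R + 1) * (368640 * D0) := by ring
            _ ≤ (R + 1) * (2 ^ 19 * D0) := by
                refine Nat.mul_le_mul_left _ (Nat.mul_le_mul_right _ (by norm_num))
            _ = (R + 1) * 2 ^ (19 + 16) := by rw [hD0, ← pow_add]
            _ ≤ (R + 1) * 2 ^ (12 * s) := Nat.mul_le_mul_left _
                (Nat.pow_le_pow_right (by norm_num) (by omega))
        calc 4096 ^ 2 * 2592 * ((R + 1) * F)
              + 2 * (4096 * (tN (a k) 1 (a k / (R + 1) + 21) * D0))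
            ≤ 2 ^ 43 * ((R + 1) * F) + 2 * (4096 * (45 * (R + 1) * D0)) := by
              refine Nat.add_le_add (Nat.mul_le_mul_right _ (by norm_num)) ?_
              exact Nat.mul_le_mul_left _ (Nat.mul_le_mul_left _ (Nat.mul_le_mul_right _ g1))
          _ ≤ 2 ^ 43 * ((R + 1) * F) + (R + 1) * 2 ^ (12 * s) := Nat.add_le_add_left g3 _
          _ = (R + 1) * (2 ^ 43 * F + 2 ^ (12 * s)) := by ring
      · refine (hrepA n hn).trans ?_
        have hR' : J + 1 ≤ (R + 1) * 2 ^ (9 * s + 4) := by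
          have : ¬ ((R + 1) * 2 ^ (9 * s + 4) ≤ J) := hR
          omega
        calc Cs * (J + 1) ≤ 2 ^ 64 * ((R + 1) * 2 ^ (9 * s + 4)) := Nat.mul_le_mul_left _ hR'
          _ = (R + 1) * 2 ^ (64 + (9 * s + 4)) := by rw [pow_add 2 64]; ring
          _ ≤ (R + 1) * 2 ^ (12 * s) := Nat.mul_le_mul_left _
                (Nat.pow_le_pow_right (by norm_num) (by omega))
          _ ≤ _ := Nat.mul_le_mul_left _ (Nat.le_add_left _ _)
    · obtain ⟨k, hk1, hk2⟩ := exists_sN hstep hu1 hzR0
      have h4a := four_a_le (a := a) hu1 k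
      have hkJ : 4 * a k ≤ J := by omega
      have hlk := hla k hkJ
      have hlog : Nat.log 2 (laT u k) + s ≤ Nat.log 2 J := by
        apply Nat.le_log_of_pow_le (by norm_num)
        rw [pow_add]
        refine (Nat.mul_le_mul_right _ (Nat.pow_log_le_self 2 ?_)).trans hlk
        have := hla100 k
        omega
      refine winB_mono (hwin k J (min (Nat.log 2 (laT u k) / 2 + 20) W) hk2 ?_) ?_ ?_ ?_
      · intro i hi
        have h1 : 4 * a i ≤ J := by
          have := hamono hi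
          omega
        simp only [w]
        rw [if_pos h1]
        refine min_le_min ?_ le_rfl
        have h2 : laT u i ≤ laT u k := by
          have g1 := humono hi
          have g2 := humono (Nat.succ_le_succ hi)
          simp only [Nat.succ_eq_add_one] at g2
          unfold laT
          omega
        have h3 := Nat.log_mono_right (b := 2) h2
        omega
      · have g1 : 5 * b + 9 ≤ 2 ^ (11 * s - 1) := by
          have e1 : 2 ^ (11 * s - 1) = 2 ^ (2 * s - 1) * b := by
            rw [hb, ← pow_add]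
            congr 1
            omega
          have e2 : 2 ^ 4 ≤ 2 ^ (2 * s - 1) := Nat.pow_le_pow_right (by norm_num) (by omega)
          have e3 : 2 ^ 4 * b ≤ 2 ^ (2 * s - 1) * b := Nat.mul_le_mul_right _ e2
          omega
        have g2 : 2 ^ (11 * s) = 2 * 2 ^ (11 * s - 1) := by
          rw [← pow_succ']
          congr 1
          omega
        have g3 : 4 * a 0 + 8 * u 0 + 1 ≤ 5 * b + 9 := by
          rw [ha0]
          omega
        omega
      · refine Nat.pow_le_pow_right (by norm_num) (le_min ?_ ?_)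
        · have := min_le_left (Nat.log 2 (laT u k) / 2 + 20) W
          omega
        · exact Nat.add_le_add_right (min_le_right _ _) _
      · show 2 ^ 17 * a k ≤ 2 ^ 64 * (J + 1)
        exact Nat.mul_le_mul (by norm_num) (by omega)
    · intro R j hj1 hjJ hjB
      by_cases hR : small R
      · have e1 : A' R = A1 R := if_pos hR
        have e2 : B' R = badN a u (Nat.log 2 c) (fun k => a k / (R + 1) + 21)
          (fun k => B k R) J Ks := if_pos hR
        rw [e1]
        rw [e2] at hjB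
        obtain ⟨k, hkJ, hk1, hk2, hk3⟩ := good_of_notMem hstep hu1 hKsN hjJ hjB
        exact hA1good R k j hk1 hk2 hk3
      · have e1 : A' R = A := if_neg hR
        rw [e1]
        intro n hn1 hn2
        obtain ⟨k, hk1, hk2⟩ := exists_sN hstep hu1 hzR0
        have h1 : 2 ≤ n := by
          have : 2 ^ 1 ≤ 2 ^ j := Nat.pow_le_pow_right (by norm_num) hj1
          omega
        exact hcov (k + 1) n h1 (lt_of_lt_of_le hn2 (Nat.pow_le_pow_right (by norm_num) (by omega)))
  · refine (sum_blockMax_le hstep hu1 hrep0 hrep hprof hzR0 hKsN).trans ?_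
    have hE1 : (badN a u 0 (fun _ => 12) (fun _ => ∅) J Ks).card ≤ 2 ^ (9 * s + 4) := by
      refine (badN_card_le a u 0 (fun _ => 12) (fun _ => ∅) J Ks).trans ?_
      have h1 : ∑ k ∈ Ks, (6 * (∅ : Finset ℕ).card + (9 + 12 + 0)) ≤ 2 ^ (2 * s + 11) := by
        calc ∑ k ∈ Ks, (6 * (∅ : Finset ℕ).card + (9 + 12 + 0))
            = Ks.card * 21 := by rw [sum_const, card_empty, smul_eq_mul]
          _ ≤ 2 ^ (2 * s + 6) * 2 ^ 5 := Nat.mul_le_mul hcard' (by norm_num)
          _ = _ := by rw [← pow_add]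
      have h2 : 2 ^ (2 * s + 11) ≤ b := Nat.pow_le_pow_right (by norm_num) (by omega)
      have h3 : 2 ^ (9 * s + 4) = 16 * b := by rw [hb, pow_add]; ring
      have h4 : 21 ≤ b := by
        calc 21 ≤ 2 ^ 5 := by norm_num
          _ ≤ b := Nat.pow_le_pow_right (by norm_num) (by omega)
      rw [h3]
      omega
    have hterm : ∀ k ∈ Ks, 4096 ^ 2 * 2592 * (6 * ∑ i ∈ range (laT u k), g k i) +
        2 * (4096 * D0) * (44 * a k * (Nat.log 2 J + 1) + J)
        ≤ 2 ^ 43 * F * u k + 2 ^ (s + 33) * J := by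
      intro k hk
      have g1 := (hT2 k (hKJ k hk)).1
      have g2 := hla14 k
      have g4 := hKJ k hk
      have g6 : 2 * (4096 * D0) = 2 ^ 29 := by
        rw [hD0]
        norm_num
      have g8 : 44 * a k * (Nat.log 2 J + 1) + J ≤ 2 ^ (s + 4) * J := by
        calc 44 * a k * (Nat.log 2 J + 1) + J ≤ 11 * J * (s ^ 2 + 1) + J := by
              refine Nat.add_le_add_right (Nat.mul_le_mul ?_ (by omega)) _
              omega
          _ = (11 * s ^ 2 + 12) * J := by ring
          _ ≤ 2 ^ (s + 4) * J := by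
              refine Nat.mul_le_mul_right _ ?_
              rw [pow_add 2 s 4]
              have : 12 ≤ 2 ^ s := by
                calc 12 ≤ 2 ^ 4 := by norm_num
                  _ ≤ 2 ^ s := Nat.pow_le_pow_right (by norm_num) (by omega)
              omega
      rw [g6]
      calc 4096 ^ 2 * 2592 * (6 * ∑ i ∈ range (laT u k), g k i) +
            2 ^ 29 * (44 * a k * (Nat.log 2 J + 1) + J)
          ≤ 4096 ^ 2 * 2592 * (6 * (F * (14 * u k))) + 2 ^ 29 * (2 ^ (s + 4) * J) := by
            refine Nat.add_le_add ?_ (Nat.mul_le_mul_left _ g8)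
            refine Nat.mul_le_mul_left _ (Nat.mul_le_mul_left _ ?_)
            exact g1.trans (Nat.mul_le_mul_left _ g2)
        _ = 4096 ^ 2 * 2592 * 84 * (F * u k) + 2 ^ (29 + (s + 4)) * J := by
            rw [pow_add 2 29]; ring
        _ ≤ 2 ^ 43 * (F * u k) + 2 ^ (29 + (s + 4)) * J :=
            Nat.add_le_add_right (Nat.mul_le_mul_right _ (by norm_num)) _
        _ = 2 ^ 43 * F * u k + 2 ^ (s + 33) * J := by
            rw [show 29 + (s + 4) = s + 33 by ring]; ring
    have hsum : ∑ k ∈ Ks, (4096 ^ 2 * 2592 * (6 * ∑ i ∈ range (laT u k), g k i) +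
        2 * (4096 * D0) * (44 * a k * (Nat.log 2 J + 1) + J))
        ≤ 2 ^ 43 * F * J + 2 ^ (3 * s + 39) * J := by
      calc _ ≤ ∑ k ∈ Ks, (2 ^ 43 * F * u k + 2 ^ (s + 33) * J) := sum_le_sum hterm
        _ = 2 ^ 43 * F * ∑ k ∈ Ks, u k + Ks.card * (2 ^ (s + 33) * J) := by
            rw [sum_add_distrib, mul_sum, sum_const, smul_eq_mul]
        _ ≤ 2 ^ 43 * F * J + 2 ^ (2 * s + 6) * (2 ^ (s + 33) * J) :=
            Nat.add_le_add (Nat.mul_le_mul_left _ hsumu) (Nat.mul_le_mul_right _ hcard')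
        _ = 2 ^ 43 * F * J + 2 ^ ((2 * s + 6) + (s + 33)) * J := by
            rw [pow_add 2 (2 * s + 6)]; ring
        _ = _ := by congr 3; ring
    have hEx : (badN a u 0 (fun _ => 12) (fun _ => ∅) J Ks).card * (Cs * (J + 1))
        ≤ 2 ^ (9 * s + 69) * J := by
      calc (badN a u 0 (fun _ => 12) (fun _ => ∅) J Ks).card * (Cs * (J + 1))
          ≤ 2 ^ (9 * s + 4) * (2 ^ 64 * (2 * J)) := by
            refine Nat.mul_le_mul hE1 (Nat.mul_le_mul_left _ (by omega))
        _ = 2 ^ ((9 * s + 4) + (64 + 1)) * J := by rw [pow_add 2 (9 * s + 4), pow_add 2 64]; ring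
        _ = _ := by congr 2
    have h12 : 2 ^ (9 * s + 69) + 2 ^ (3 * s + 39) ≤ 2 ^ (12 * s) := by
      have g1 : 2 ^ (9 * s + 69) ≤ 2 ^ (12 * s - 1) :=
        Nat.pow_le_pow_right (by norm_num) (by omega)
      have g2 : 2 ^ (3 * s + 39) ≤ 2 ^ (12 * s - 1) :=
        Nat.pow_le_pow_right (by norm_num) (by omega)
      have g3 : 2 ^ (12 * s) = 2 * 2 ^ (12 * s - 1) := by
        rw [← pow_succ']
        congr 1
        omega
      rw [g3, two_mul]
      exact Nat.add_le_add g1 g2
    calc _ ≤ 2 ^ (9 * s + 69) * J + (2 ^ 43 * F * J + 2 ^ (3 * s + 39) * J) :=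
          Nat.add_le_add hEx hsum
      _ = 2 ^ 43 * F * J + (2 ^ (9 * s + 69) + 2 ^ (3 * s + 39)) * J := by ring
      _ ≤ 2 ^ 43 * F * J + 2 ^ (12 * s) * J :=
          Nat.add_le_add_left (Nat.mul_le_mul_right _ h12) _
      _ = _ := by ring
  · intro R
    by_cases hR : small R
    swap
    · have e2 : B' R = ∅ := if_neg hR
      rw [e2]
      simp
    have e2 : B' R = badN a u (Nat.log 2 c) (fun k => a k / (R + 1) + 21)
      (fun k => B k R) J Ks := if_pos hR
    rw [e2]
    refine ⟨?_, fun j hj => ?_⟩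
    swap
    · unfold badN at hj
      exact mem_range.1 (mem_filter.1 hj).1
    have hR' : (R + 1) * 2 ^ (9 * s + 4) ≤ J := hR
    have hRb : 16 * b * (R + 1) ≤ J := by
      calc 16 * b * (R + 1) = (R + 1) * 2 ^ (9 * s + 4) := by rw [hb, pow_add]; ring
        _ ≤ J := hR'
    have hcb := badN_card_le a u (Nat.log 2 c) (fun k => a k / (R + 1) + 21) (fun k => B k R) J Ks
    have hv : ∀ x : ℕ, x / (R + 1) * (R + 1) ≤ x := fun x => Nat.div_mul_le_self _ _
    have h0 : (sN a u 0 + 9 + (a 0 / (R + 1) + 21) + Nat.log 2 c) * (R + 1) ≤ J := by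
      have g1 : a 0 / (R + 1) ≤ b := Nat.div_le_self _ _
      have g2 : s + 21 ≤ b := by
        calc s + 21 ≤ 2 ^ s + 2 ^ s := by
              have h1 : s < 2 ^ s := Nat.lt_two_pow_self
              omega
          _ = 2 ^ (s + 1) := by rw [pow_succ]; ring
          _ ≤ b := Nat.pow_le_pow_right (by norm_num) (by omega)
      calc (sN a u 0 + 9 + (a 0 / (R + 1) + 21) + Nat.log 2 c) * (R + 1)
          ≤ 16 * b * (R + 1) := Nat.mul_le_mul_right _ (by omega)
        _ ≤ J := hRb
    have hterm : ∀ k ∈ Ks, (6 * (B k R).card + (9 + (a (k + 1) / (R + 1) + 21)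
        + Nat.log 2 c)) * (R + 1) ≤ 84 * X * u k + 2 ^ (6 * s + 15) * (R + 1) + J := by
      intro k hk
      have g1 := (hT2 k (hKJ k hk)).2 R
      have g2 := hla14 k
      have g4 := h2J k (hKJ k hk)
      have g5 : 30 + Nat.log 2 c ≤ 2 ^ (6 * s + 15) := by
        have g7 : s + 33 ≤ 2 ^ (6 * s + 15) := by
          calc s + 33 ≤ 2 ^ s + 2 ^ s := by
                have h1 : s < 2 ^ s := Nat.lt_two_pow_self
                omega
            _ = 2 ^ (s + 1) := by rw [pow_succ]; ring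
            _ ≤ _ := Nat.pow_le_pow_right (by norm_num) (by omega)
        omega
      calc (6 * (B k R).card + (9 + (a (k + 1) / (R + 1) + 21) + Nat.log 2 c)) * (R + 1)
          = 6 * ((B k R).card * (R + 1)) + (30 + Nat.log 2 c) * (R + 1)
            + a (k + 1) / (R + 1) * (R + 1) := by ring
        _ ≤ 6 * (X * (14 * u k)) + 2 ^ (6 * s + 15) * (R + 1) + J := by
            refine Nat.add_le_add (Nat.add_le_add ?_ (Nat.mul_le_mul_right _ g5))
              ((hv _).trans g4)
            exact Nat.mul_le_mul_left _ (g1.trans (Nat.mul_le_mul_left _ g2))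
        _ = _ := by ring
    have h8 : 2 ^ (2 * s + 6) * (2 ^ (6 * s + 15) * (R + 1)) ≤ J := by
      calc 2 ^ (2 * s + 6) * (2 ^ (6 * s + 15) * (R + 1))
          = 2 ^ ((2 * s + 6) + (6 * s + 15)) * (R + 1) := by rw [pow_add 2 (2 * s + 6)]; ring
        _ ≤ 2 ^ (9 * s + 4) * (R + 1) := Nat.mul_le_mul_right _
              (Nat.pow_le_pow_right (by norm_num) (by omega))
        _ = (R + 1) * 2 ^ (9 * s + 4) := mul_comm _ _
        _ ≤ J := hR'
    have hsum : (∑ k ∈ Ks, (6 * (B k R).card + (9 + (a (k + 1) / (R + 1) + 21)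
        + Nat.log 2 c))) * (R + 1) ≤ 84 * X * J + J + 2 ^ (2 * s + 6) * J := by
      rw [sum_mul]
      calc _ ≤ ∑ k ∈ Ks, (84 * X * u k + 2 ^ (6 * s + 15) * (R + 1) + J) := sum_le_sum hterm
        _ = 84 * X * ∑ k ∈ Ks, u k + Ks.card * (2 ^ (6 * s + 15) * (R + 1)) + Ks.card * J := by
            rw [sum_add_distrib, sum_add_distrib, mul_sum, sum_const, sum_const, smul_eq_mul,
              smul_eq_mul]
        _ ≤ 84 * X * J + 2 ^ (2 * s + 6) * (2 ^ (6 * s + 15) * (R + 1)) + 2 ^ (2 * s + 6) * J :=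
            Nat.add_le_add (Nat.add_le_add (Nat.mul_le_mul_left _ hsumu)
              (Nat.mul_le_mul_right _ hcard')) (Nat.mul_le_mul_right _ hcard')
        _ ≤ _ := Nat.add_le_add_right (Nat.add_le_add_left h8 _) _
    have h3s : 2 + 2 ^ (2 * s + 6) ≤ 2 ^ (3 * s) := by
      calc 2 + 2 ^ (2 * s + 6) ≤ 2 ^ (2 * s + 6) + 2 ^ (2 * s + 6) := by
            have : 2 ^ 1 ≤ 2 ^ (2 * s + 6) := Nat.pow_le_pow_right (by norm_num) (by omega)
            omega
        _ = 2 ^ (2 * s + 7) := by rw [pow_succ 2 (2 * s + 6)]; ring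
        _ ≤ _ := Nat.pow_le_pow_right (by norm_num) (by omega)
    calc (badN a u (Nat.log 2 c) (fun k => a k / (R + 1) + 21) (fun k => B k R) J Ks).card
          * (R + 1)
        ≤ (sN a u 0 + 9 + (a 0 / (R + 1) + 21) + Nat.log 2 c +
          ∑ k ∈ Ks, (6 * (B k R).card + (9 + (a (k + 1) / (R + 1) + 21)
            + Nat.log 2 c))) * (R + 1) := Nat.mul_le_mul_right _ hcb
      _ = (sN a u 0 + 9 + (a 0 / (R + 1) + 21) + Nat.log 2 c) * (R + 1) +
          (∑ k ∈ Ks, (6 * (B k R).card + (9 + (a (k + 1) / (R + 1) + 21)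
            + Nat.log 2 c))) * (R + 1) := by rw [add_mul]
      _ ≤ J + (84 * X * J + J + 2 ^ (2 * s + 6) * J) := Nat.add_le_add h0 hsum
      _ = 84 * X * J + (2 + 2 ^ (2 * s + 6)) * J := by ring
      _ ≤ 84 * X * J + 2 ^ (3 * s) * J := Nat.add_le_add_left (Nat.mul_le_mul_right _ h3s) _
      _ = (84 * X + 2 ^ (3 * s)) * J := by ring

end Pool.Agent.Helper48.FN
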